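import Pool.Agent.Lib.MP_af3016_co.Main

set_option autoImplicit false

namespace Pool.Agent.Results.MP_af3016_co.AlphaTwo

/-- El-Zahar's conjecture for all graphs of independence number at most two, with no lower bound
on the number of vertices: if `n 1, ..., n k` are at least 3 and sum to the number of vertices,
the minimum degree is at least the sum of the `ceil (n i / 2)` and no three vertices are pairwise
nonadjacent, then there are pairwise vertex-disjoint cycles of lengths `n 1, ..., n k`. -/
theorem result :
    ∀ (V : Type) [Fintype V] [DecidableEq V] (G : SimpleGraph V) [DecidableRel G.Adj]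
      (k : ℕ) (n : Fin k → ℕ),
      G.indepNum ≤ 2 →
      (∀ i, 3 ≤ n i) →
      (∑ i, n i = Fintype.card V) →
      (∑ i, (n i + 1) / 2) ≤ G.minDegree →
      ∃ (v : Fin k → V) (c : ∀ i, G.Walk (v i) (v i)),
        (∀ i, (c i).IsCycle ∧ (c i).length = n i) ∧
        ∀ i j, i ≠ j → Disjoint (c i).support.toFinset (c j).support.toFinset := by
  intro V _ _ G _ k n hα h3 hs hdeg
  exact Pool.Agent.Lib.MP_af3016_co.main G n hα h3 hs hdeg

end Pool.Agent.Results.MP_af3016_co.AlphaTwo
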