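import Pool.Agent.Lib.MP_af3016_co.F.Final

set_option autoImplicit false

namespace Pool.Agent.Results.MP_af3016_co.TwoLong

/-- El-Zahar's conjecture for all graphs, with no lower bound on the number of vertices, when at
most two of the prescribed lengths exceed four: if `n 1, ..., n k` are at least 3, at most two of
them are at least 5, they sum to the number of vertices and the minimum degree is at least the sum
of the `ceil (n i / 2)`, then there are pairwise vertex-disjoint cycles of lengths
`n 1, ..., n k`. -/
theorem result :
    ∀ (V : Type) [Fintype V] [DecidableEq V] (G : SimpleGraph V) [DecidableRel G.Adj]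
      (k : ℕ) (n : Fin k → ℕ),
      (Finset.univ.filter fun i => 5 ≤ n i).card ≤ 2 →
      (∀ i, 3 ≤ n i) →
      (∑ i, n i = Fintype.card V) →
      (∑ i, (n i + 1) / 2) ≤ G.minDegree →
      ∃ (v : Fin k → V) (c : ∀ i, G.Walk (v i) (v i)),
        (∀ i, (c i).IsCycle ∧ (c i).length = n i) ∧
        ∀ i j, i ≠ j → Disjoint (c i).support.toFinset (c j).support.toFinset := by
  intro V _ _ G _ k n h5 h3 hs hdeg
  exact Pool.Agent.Lib.MP_af3016_co.mainF G k n h5 h3 hs hdeg

end Pool.Agent.Results.MP_af3016_co.TwoLong
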